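import Pool.Agent.LD.L.Apx
import Pool.Agent.LD.L.Pl
import Pool.Agent.H73.AL.Final

/-!
# MX/P-Conj: two embeddings which induce the same place are conjugate under the decomposition group
-/

namespace Pool.Agent.MX

open NumberField IsDedekindDomain Pool.Agent.HWR Pool.Agent.QD Pool.Agent.H73.DU Pool.Agent.LD

private theorem cj_alg_cl (inst : Algebra ℚ (AlgebraicClosure ℚ)) :
    IsAlgClosure ℚ (AlgebraicClosure ℚ) := by
  have h : inst = AlgebraicClosure.instAlgebra ℚ := Subsingleton.elim _ _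
  subst h
  infer_instance

private theorem cj_ext_loc {Ω : Type} [Field Ω] [CharZero Ω] (i : AlgebraicClosure ℚ →+* Ω)
    (σ : Ω ≃+* Ω) : ∃ g : GQ, ∀ x, i (g x) = σ (i x) := by
  have : IsAlgClosure ℚ (AlgebraicClosure ℚ) := cj_alg_cl inferInstance
  have : Normal ℚ (AlgebraicClosure ℚ) := IsAlgClosure.normal ℚ _
  let _ : Algebra (AlgebraicClosure ℚ) Ω := i.toAlgebra
  let _ : Algebra ℚ Ω := DivisionRing.toRatAlgebra
  have : IsScalarTower ℚ (AlgebraicClosure ℚ) Ω :=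
    IsScalarTower.of_algebraMap_eq' (Subsingleton.elim _ _)
  let σ' : Ω ≃ₐ[ℚ] Ω := AlgEquiv.ofRingEquiv (f := σ) (fun r => by
    rw [eq_ratCast, map_ratCast])
  refine ⟨σ'.restrictNormal (AlgebraicClosure ℚ), fun x => ?_⟩
  exact σ'.restrictNormal_commutes (AlgebraicClosure ℚ) x

private theorem cj_norm_p (p : ℕ) [Fact p.Prime] : ‖((p : ℕ) : AlgebraicClosure ℚ_[p])‖ = (p : ℝ)⁻¹ := by
  rw [← map_natCast (algebraMap ℚ_[p] (AlgebraicClosure ℚ_[p])), PadicAlgCl.norm_extends,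
    Padic.norm_p]

/-- elements of valuation at most one have norm at most one -/
private theorem cj_val {p : ℕ} [Fact p.Prime] {F : Type} [Field F] [NumberField F]
    {φ : F →+* AlgebraicClosure ℚ} {w : HeightOneSpectrum (𝓞 F)} (hw : IsPl p φ w) {y : F}
    (hy : w.valuation F y ≤ 1) : ‖emb p (φ y)‖ ≤ 1 := by
  obtain ⟨n, d, hnd⟩ := w.exists_primeCompl_mul_eq_of_integer (K := F) y hy
  have h1 : y * ((d : 𝓞 F) : F) = (n : F) := hnd
  have hd2 : ¬ ‖emb p (φ ((d : 𝓞 F) : F))‖ < 1 := fun h => d.2 ((hw _).2 h)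
  have hd3 : ‖emb p (φ ((d : 𝓞 F) : F))‖ = 1 := le_antisymm (int_le_one p φ d) (not_lt.1 hd2)
  have hn := int_le_one p φ n
  rw [← h1, map_mul, map_mul, norm_mul, hd3, mul_one] at hn
  exact hn

/-- powers of `p` -/
private theorem cj_tr {p : ℕ} [Fact p.Prime] {F : Type} [Field F] [NumberField F]
    {φ1 φ2 : F →+* AlgebraicClosure ℚ} {w : HeightOneSpectrum (𝓞 F)} (h1 : IsPl p φ1 w)
    (h2 : IsPl p φ2 w) (k : ℕ) {x : F} (hx : ‖emb p (φ1 x)‖ ≤ ((p : ℝ)⁻¹) ^ k) :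
    ‖emb p (φ2 x)‖ ≤ ((p : ℝ)⁻¹) ^ k := by
  have hpr : (0 : ℝ) < (p : ℝ)⁻¹ := inv_pos.2 (by exact_mod_cast (Fact.out : p.Prime).pos)
  have e : ∀ φ : F →+* AlgebraicClosure ℚ, ‖emb p (φ (x / (p : F) ^ k))‖ =
      ‖emb p (φ x)‖ / ((p : ℝ)⁻¹) ^ k := by
    intro φ
    rw [map_div₀, map_div₀, map_pow, map_pow, map_natCast, map_natCast, norm_div, norm_pow,
      cj_norm_p]
  have h3 : w.valuation F (x / (p : F) ^ k) ≤ 1 := by
    apply isPl_val h1
    rw [e]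
    exact div_le_one_of_le₀ hx (pow_pos hpr k).le
  have h4 := cj_val h2 h3
  rw [e, div_le_one₀ (pow_pos hpr k)] at h4
  exact h4

/-- approximation of polynomials by rational ones -/
private theorem cj_apx (p : ℕ) [Fact p.Prime] (a b : AlgebraicClosure ℚ_[p]) (f : Polynomial ℚ_[p]) :
    ∀ δ : ℝ, 0 < δ → ∃ h : Polynomial ℚ,
      ‖Polynomial.aeval a f - Polynomial.eval₂ (Rat.castHom (AlgebraicClosure ℚ_[p])) a h‖ < δ ∧
      ‖Polynomial.aeval b f - Polynomial.eval₂ (Rat.castHom (AlgebraicClosure ℚ_[p])) b h‖ < δ := by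
  induction f using Polynomial.induction_on' with
  | add f1 f2 ih1 ih2 =>
    intro δ hδ
    obtain ⟨h1, ha1, hb1⟩ := ih1 (δ / 2) (by linarith)
    obtain ⟨h2, ha2, hb2⟩ := ih2 (δ / 2) (by linarith)
    refine ⟨h1 + h2, ?_, ?_⟩
    · rw [map_add, Polynomial.eval₂_add, add_sub_add_comm]
      exact lt_of_le_of_lt (norm_add_le _ _) (by linarith)
    · rw [map_add, Polynomial.eval₂_add, add_sub_add_comm]
      exact lt_of_le_of_lt (norm_add_le _ _) (by linarith)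
  | monomial n c =>
    intro δ hδ
    obtain ⟨q, hq⟩ := Padic.rat_dense p c (ε := δ / (‖a‖ ^ n + ‖b‖ ^ n + 1)) (by positivity)
    have hm : ‖c - (q : ℚ_[p])‖ * (‖a‖ ^ n + ‖b‖ ^ n + 1) < δ := (lt_div_iff₀ (by positivity)).1 hq
    have h3 : 0 ≤ ‖c - (q : ℚ_[p])‖ := norm_nonneg _
    have h4 : 0 ≤ ‖a‖ ^ n := by positivity
    have h5 : 0 ≤ ‖b‖ ^ n := by positivity
    have e : ∀ z : AlgebraicClosure ℚ_[p], Polynomial.aeval z (Polynomial.monomial n c) -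
        Polynomial.eval₂ (Rat.castHom (AlgebraicClosure ℚ_[p])) z (Polynomial.monomial n q) =
        algebraMap ℚ_[p] (AlgebraicClosure ℚ_[p]) (c - (q : ℚ_[p])) * z ^ n := by
      intro z
      rw [Polynomial.aeval_monomial, Polynomial.eval₂_monomial, map_sub, map_ratCast, sub_mul]
      rfl
    refine ⟨Polynomial.monomial n q, ?_, ?_⟩
    · rw [e, norm_mul, norm_pow, PadicAlgCl.norm_extends]
      nlinarith
    · rw [e, norm_mul, norm_pow, PadicAlgCl.norm_extends]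
      nlinarith

private theorem cj_hom {F Ω : Type} [Field F] [CharZero F] [Field Ω] [CharZero Ω] (ψ : F →+* Ω) (θ : F) (h : Polynomial ℚ) :
    ψ (Polynomial.eval₂ (Rat.castHom F) θ h) = Polynomial.eval₂ (Rat.castHom Ω) (ψ θ) h := by
  rw [Polynomial.hom_eval₂]
  congr 1
  exact Subsingleton.elim _ _

theorem conj_pl (p : ℕ) [Fact p.Prime] {F : Type} [Field F] [NumberField F]
    (φ1 φ2 : F →+* AlgebraicClosure ℚ) {w : HeightOneSpectrum (𝓞 F)} (h1 : IsPl p φ1 w)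
    (h2 : IsPl p φ2 w) : ∃ d ∈ decomp ℚ_[p] (emb p), d • φ1 = φ2 := by
  obtain ⟨pb⟩ : Nonempty (PowerBasis ℚ F) := ⟨Field.powerBasisOfFiniteOfSeparable ℚ F⟩
  obtain ⟨a, ha⟩ : ∃ a, a = emb p (φ1 pb.gen) := ⟨_, rfl⟩
  obtain ⟨b, hb⟩ : ∃ b, b = emb p (φ2 pb.gen) := ⟨_, rfl⟩
  have hpr : (0 : ℝ) < (p : ℝ)⁻¹ := inv_pos.2 (by exact_mod_cast (Fact.out : p.Prime).pos)
  have hpl : (p : ℝ)⁻¹ < 1 := by
    have h : (1 : ℝ) < p := by exact_mod_cast (Fact.out : p.Prime).one_lt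
    exact inv_lt_one_of_one_lt₀ h
  have hroot : Polynomial.aeval b (minpoly ℚ_[p] a) = 0 := by
    by_contra hne
    have hc : 0 < ‖Polynomial.aeval b (minpoly ℚ_[p] a)‖ := norm_pos_iff.2 hne
    obtain ⟨k, hk⟩ := exists_pow_lt_of_lt_one (half_pos hc) hpl
    obtain ⟨h, hha, hhb⟩ := cj_apx p a b (minpoly ℚ_[p] a)
      (min (‖Polynomial.aeval b (minpoly ℚ_[p] a)‖ / 2) (((p : ℝ)⁻¹) ^ k)) (by positivity)
    rw [minpoly.aeval, zero_sub, norm_neg] at hha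
    have e1 := cj_hom ((emb p).comp φ1) pb.gen h
    have e2 := cj_hom ((emb p).comp φ2) pb.gen h
    rw [RingHom.comp_apply, RingHom.comp_apply, ← ha] at e1
    rw [RingHom.comp_apply, RingHom.comp_apply, ← hb] at e2
    rw [← e1] at hha
    rw [← e2] at hhb
    have h3 := cj_tr h1 h2 k (hha.trans_le (min_le_right _ _)).le
    have h4 := hhb.trans_le (min_le_left _ _)
    have h5 := norm_add_le (Polynomial.aeval b (minpoly ℚ_[p] a) -
      emb p (φ2 (Polynomial.eval₂ (Rat.castHom F) pb.gen h)))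
      (emb p (φ2 (Polynomial.eval₂ (Rat.castHom F) pb.gen h)))
    rw [sub_add_cancel] at h5
    linarith
  obtain ⟨σ, hσ⟩ := minpoly.exists_algEquiv_of_root' (K := ℚ_[p]) (L := AlgebraicClosure ℚ_[p])
    (Algebra.IsAlgebraic.isAlgebraic a) hroot
  obtain ⟨g, hg⟩ := cj_ext_loc (emb p) (σ : AlgebraicClosure ℚ_[p] ≃+* AlgebraicClosure ℚ_[p])
  have hg' : ∀ x, emb p (g x) = σ (emb p x) := hg
  refine ⟨g, ⟨σ, hg'⟩, ?_⟩
  have h6 : (g • φ1) pb.gen = φ2 pb.gen := by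
    apply (emb p).injective
    change emb p (g (φ1 pb.gen)) = _
    rw [hg', ← ha, ← hb, hσ]
  have h7 : (g • φ1).toRatAlgHom = φ2.toRatAlgHom := pb.algHom_ext h6
  refine RingHom.ext fun x => ?_
  exact DFunLike.congr_fun h7 x

end Pool.Agent.MX
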