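import Pool.Agent.MX.I.Defs
import Pool.Agent.MD.F.Cho

/-!
# MX/P-Cho: choice of the element `x`
-/

namespace Pool.Agent.MX

open NumberField IsDedekindDomain Pool.Agent.HWR Pool.Agent.QD Pool.Agent.QD.In Pool.Agent.LD
  Pool.Agent.MD

theorem choose_x {K : Type} [Field K] [NumberField K] {T : Finset ℕ} (hTp : ∀ p ∈ T, p.Prime)
    (h2 : 2 ∈ T) (V : Finset (HeightOneSpectrum (𝓞 K))) (hV : ∀ v ∈ V, Away K T v)
    (τ : HeightOneSpectrum (𝓞 K) → Ty) :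
    ∃ x : Kˣ, (∀ v ∈ V, τ v = Ty.s → ¬ LSq v x) ∧ ∀ v ∈ V, τ v ≠ Ty.s → LSq v x := by
  classical
  obtain ⟨b, -, hb⟩ := choose1 hTp h2 V hV 1
  obtain ⟨a, -, ha⟩ := approx_many (∅ : Finset (HeightOneSpectrum (𝓞 K))) V
    (fun v _ => Finset.notMem_empty v) 1 (fun v => if τ v = Ty.s then b else 1)
  refine ⟨a, fun v hv hs h => ?_, fun v hv hs => ?_⟩
  · have h1 := ha v hv
    rw [if_pos hs] at h1
    have h2 : LSq v (a / (a / b)) := LSq_div h h1
    rw [div_div_cancel] at h2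
    exact (hb v hv).1 h2
  · have h1 := ha v hv
    rwa [if_neg hs, div_one] at h1

end Pool.Agent.MX
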