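import Pool.Agent.MX.P.Defs
import Pool.Agent.MX.P.Conj
import Pool.Agent.MD.P.Sum
import Pool.Agent.LD.L.Deg

/-!
# MX/P-Cnt: local degrees are the cardinalities of the orbits of the decomposition group
-/

namespace Pool.Agent.MX

open NumberField IsDedekindDomain Pool.Agent.HWR Pool.Agent.QD Pool.Agent.H73.DU
  Pool.Agent.H73.AL Pool.Agent.LD Pool.Agent.MD

section

variable (K F : NF) [Algebra K.F F.F] (φ : K.F →+* AlgebraicClosure ℚ)
  (ψ : F.F →+* AlgebraicClosure ℚ) (hψ : ψ.comp (algebraMap K.F F.F) = φ)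
  (p : ℕ) [Fact p.Prime] (g : GQ) (X : Type) [MulAction (stb φ) X] (x0 : X)
  (hst : stb ψ = (MulAction.stabilizer (stb φ) x0).map (stb φ).subtype)

include hψ in
private theorem cnt_comp (j : stb φ) :
    ((g * (j : GQ)) • ψ).comp (algebraMap K.F F.F) = g • φ := by
  ext a
  change g ((j : GQ) (ψ (algebraMap K.F F.F a))) = g (φ a)
  have h1 : ψ (algebraMap K.F F.F a) = φ a := RingHom.congr_fun hψ a
  have h2 : (j : GQ) • φ = φ := MulAction.mem_stabilizer_iff.1 j.2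
  have h3 : (j : GQ) (φ a) = φ a := RingHom.congr_fun h2 a
  rw [h1, h3]

include hψ hst

theorem pt_inj {w' : HeightOneSpectrum (𝓞 F.F)} (j j' : stb φ)
    (h : IsPl p ((g * (j : GQ)) • ψ) w') (h' : IsPl p ((g * (j' : GQ)) • ψ) w') :
    j' • x0 ∈ Orb (Ud p g φ) (j • x0) := by
  obtain ⟨d, hd, hdd⟩ := conj_pl p _ _ h h'
  have hu : g⁻¹ * d * g ∈ stb φ := by
    refine MulAction.mem_stabilizer_iff.2 ?_
    have h1 : d • (g • φ) = g • φ := by
      have h2 := congrArg (fun χ : F.F →+* AlgebraicClosure ℚ => χ.comp (algebraMap K.F F.F)) hdd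
      have h3 : (d • ((g * (j : GQ)) • ψ)).comp (algebraMap K.F F.F) =
          d • (((g * (j : GQ)) • ψ).comp (algebraMap K.F F.F)) := rfl
      have h4 : (d • ((g * (j : GQ)) • ψ)).comp (algebraMap K.F F.F) =
          ((g * (j' : GQ)) • ψ).comp (algebraMap K.F F.F) := h2
      rw [h3, cnt_comp K F φ ψ hψ g j, cnt_comp K F φ ψ hψ g j'] at h4
      exact h4
    rw [mul_smul, mul_smul, h1, inv_smul_smul]
  have h2 : ((j' : GQ)⁻¹ * (g⁻¹ * d * g) * (j : GQ)) • ψ = ψ := by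
    have e1 : (j' : GQ)⁻¹ * (g⁻¹ * d * g) * (j : GQ) = (g * (j' : GQ))⁻¹ * (d * (g * (j : GQ))) := by
      group
    rw [e1, mul_smul, mul_smul, hdd, inv_smul_smul]
  have h3 : (j' : GQ)⁻¹ * (g⁻¹ * d * g) * (j : GQ) ∈ stb ψ := MulAction.mem_stabilizer_iff.2 h2
  rw [hst] at h3
  obtain ⟨k, hk, hk'⟩ := Subgroup.mem_map.1 h3
  have hk2 : (k : GQ) = (j' : GQ)⁻¹ * (g⁻¹ * d * g) * (j : GQ) := hk'
  have hk3 : (⟨g⁻¹ * d * g, hu⟩ : stb φ) * j = j' * k := by
    apply Subtype.ext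
    rw [Subgroup.coe_mul, Subgroup.coe_mul, hk2]
    group
  refine ⟨⟨g⁻¹ * d * g, hu⟩, ?_, ?_⟩
  · unfold Ud
    rw [Subgroup.mem_subgroupOf]
    exact mem_cj hd
  · rw [← mul_smul, hk3, mul_smul, MulAction.mem_stabilizer_iff.1 hk]

theorem same_pl {w' w'' : HeightOneSpectrum (𝓞 F.F)} (j j' : stb φ)
    (h : IsPl p ((g * (j : GQ)) • ψ) w') (h' : IsPl p ((g * (j' : GQ)) • ψ) w'')
    (hj : j • x0 = j' • x0) : w' = w'' := by
  have h1 : j'⁻¹ * j ∈ MulAction.stabilizer (stb φ) x0 := by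
    rw [MulAction.mem_stabilizer_iff, mul_smul, hj, inv_smul_smul]
  have h2 : ((j'⁻¹ * j : stb φ) : GQ) ∈ stb ψ := by
    rw [hst]
    exact Subgroup.mem_map.2 ⟨j'⁻¹ * j, h1, rfl⟩
  have h3 : ((j' : GQ)⁻¹ * (j : GQ)) • ψ = ψ := MulAction.mem_stabilizer_iff.1 h2
  have h4 : (j : GQ) • ψ = (j' : GQ) • ψ := by
    rw [mul_smul, inv_smul_eq_iff] at h3
    exact h3
  have h5 : (g * (j : GQ)) • ψ = (g * (j' : GQ)) • ψ := by
    rw [mul_smul, mul_smul, h4]
  rw [h5] at h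
  apply HeightOneSpectrum.ext
  ext x
  rw [h x, h' x]

theorem cnt {n : ℕ} (hX : TSet (stb φ) X n) (hn : Module.finrank K.F F.F = n)
    (w : HeightOneSpectrum (𝓞 K.F)) (hw : IsPl p (g • φ) w)
    (hle : ∀ (j : stb φ) (w' : HeightOneSpectrum (𝓞 F.F)), Over w w' →
      IsPl p ((g * (j : GQ)) • ψ) w' → (Orb (Ud p g φ) (j • x0)).ncard ≤ locDeg K.F w')
    (w' : HeightOneSpectrum (𝓞 F.F)) (h : Over w w') :
    ∃ j : stb φ, IsPl p ((g * (j : GQ)) • ψ) w' ∧
      locDeg K.F w' = (Orb (Ud p g φ) (j • x0)).ncard := by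
  classical
  have hn0 : 0 < n := by
    have hfd : FiniteDimensional K.F F.F := Module.Finite.of_restrictScalars_finite ℚ K.F F.F
    rw [← hn]
    exact Module.finrank_pos
  have hfin : Finite X := Nat.finite_of_card_ne_zero (by rw [hX.card]; exact hn0.ne')
  let _ : Fintype X := Fintype.ofFinite X
  choose J hJ using fun y : X => hX.tr x0 y
  choose f hf using fun y : X => exists_isPl p ((g * (J y : GQ)) • ψ)
  have hov : ∀ y, Over w (f y) := fun y => isPl_over (cnt_comp K F φ ψ hψ g (J y)) hw (hf y)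
  have hfib : ∀ (w' : HeightOneSpectrum (𝓞 F.F)) (y : X), f y = w' →
      (Finset.univ.filter fun z => f z = w').card ≤ (Orb (Ud p g φ) (J y • x0)).ncard := by
    intro w' y hy
    rw [← Set.ncard_coe_finset]
    refine Set.ncard_le_ncard ?_ (Set.toFinite _)
    intro z hz
    have hz' : f z = w' := (Finset.mem_filter.1 (Finset.mem_coe.1 hz)).2
    have h1 := hf y
    have h2 := hf z
    rw [hy] at h1
    rw [hz'] at h2
    have h3 := pt_inj K F φ ψ hψ p g X x0 hst (J y) (J z) h1 h2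
    rw [hJ z] at h3
    exact h3
  have hle' : ∀ w' ∈ pls F.F w, (Finset.univ.filter fun z => f z = w').card ≤ locDeg K.F w' := by
    intro w' hw'
    rcases (Finset.univ.filter fun z => f z = w').eq_empty_or_nonempty with h0 | ⟨y, hy⟩
    · rw [h0, Finset.card_empty]
      exact Nat.zero_le _
    · have hy' : f y = w' := (Finset.mem_filter.1 hy).2
      refine (hfib w' y hy').trans (hle (J y) w' (mem_pls.1 hw') ?_)
      rw [← hy']
      exact hf y
  have hsum : ∑ w' ∈ pls F.F w, (Finset.univ.filter fun z => f z = w').card =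
      ∑ w' ∈ pls F.F w, locDeg K.F w' := by
    rw [sum_locDeg F.F w, hn, ← hX.card, Nat.card_eq_fintype_card, ← Finset.card_univ]
    exact (Finset.card_eq_sum_card_fiberwise fun y _ => mem_pls.2 (hov y)).symm
  have heq := (Finset.sum_eq_sum_iff_of_le hle').1 hsum w' (mem_pls.2 h)
  have hpos := locDeg_pos K.F w'
  rw [← heq] at hpos
  obtain ⟨y, hy⟩ := Finset.card_pos.1 hpos
  have hy' : f y = w' := (Finset.mem_filter.1 hy).2
  have hpl := hf y
  rw [hy'] at hpl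
  refine ⟨J y, hpl, le_antisymm ?_ (hle (J y) w' h hpl)⟩
  rw [← heq]
  exact hfib w' y hy'

end

end Pool.Agent.MX
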