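import Pool.Agent.MX.P.NCyc
import Pool.Agent.MD.P.Coc
import Pool.Agent.MD.L.Fix

/-!
# MX/P-Coc: the cocycles for the places of `V`
-/

namespace Pool.Agent.MX

open NumberField IsDedekindDomain Pool.Agent.HWR Pool.Agent.QD Pool.Agent.H73.DU
  Pool.Agent.H73.AL Pool.Agent.LD Pool.Agent.MD

private theorem cc_prime_mem {K : Type} [Field K] [NumberField K]
    (v : HeightOneSpectrum (𝓞 K)) (n : ℕ) :
    n ≠ 0 → ((n : ℕ) : 𝓞 K) ∈ v.asIdeal →
      ∃ p : ℕ, p.Prime ∧ ((p : ℕ) : 𝓞 K) ∈ v.asIdeal := by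
  induction n using induction_on_primes with
  | zero => exact fun h => absurd rfl h
  | one =>
    intro _ h
    exfalso
    rw [Nat.cast_one] at h
    exact v.isPrime.ne_top ((Ideal.eq_top_iff_one _).2 h)
  | prime_mul p a hp ih =>
    intro h1 h2
    rw [Nat.cast_mul] at h2
    rcases v.isPrime.mem_or_mem h2 with h3 | h3
    · exact ⟨p, hp, h3⟩
    · exact ih (fun h => h1 (by rw [h, mul_zero])) h3

private theorem cc_exists_p {K : Type} [Field K] [NumberField K]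
    (v : HeightOneSpectrum (𝓞 K)) : ∃ p : ℕ, p.Prime ∧ ((p : ℕ) : 𝓞 K) ∈ v.asIdeal :=
  cc_prime_mem v (Ideal.absNorm v.asIdeal)
    (fun h => v.ne_bot (Ideal.absNorm_eq_zero_iff.1 h)) (Ideal.absNorm_mem _)

private theorem cc_famT_mono {T T' : Finset ℕ} (h : T ⊆ T') : famT T ⊆ famT T' := by
  rintro U (hU | ⟨l, hl, a, hlT, hU⟩)
  · exact Or.inl hU
  · exact Or.inr ⟨l, hl, a, h hlT, hU⟩

private theorem cc_exists_g (K : NF) (φ : K.F →+* AlgebraicClosure ℚ)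
    (w : HeightOneSpectrum (𝓞 K.F)) : ∃ (p : ℕ) (_ : Fact p.Prime) (g : GQ),
      IsPl p (g • φ) w := by
  obtain ⟨p, hp, hpw⟩ := cc_exists_p w
  have : Fact p.Prime := ⟨hp⟩
  obtain ⟨ψ, hψ⟩ := exists_emb p K.F w hpw
  obtain ⟨g, hg⟩ := trans_emb K.F φ ψ
  exact ⟨p, ⟨hp⟩, g, by rw [hg]; exact hψ⟩

private theorem cc_exists_u (p : ℕ) [Fact p.Prime] {K : Type} [Field K] [NumberField K]
    (φ : K →+* AlgebraicClosure ℚ) (w : HeightOneSpectrum (𝓞 K)) (g : GQ)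
    (hg : IsPl p (g • φ) w) (x : Kˣ) (hx : ¬ LSq w x) (s : AlgebraicClosure ℚ)
    (hs : s ^ 2 = φ (x : K)) (ε : stb φ →* (ZMod 3)ˣ)
    (hε : ∀ g : stb φ, ε g = 1 ↔ (g : GQ) s = s) :
    ∃ u ∈ Ud p g φ, ε u ≠ 1 := by
  by_contra hcon
  push Not at hcon
  apply hx
  apply lsq_of_fix p (g • φ) hg x (g s)
  · rw [← map_pow, hs]
    rfl
  · intro h hd hst
    have hst' : h • (g • φ) = g • φ := hst
    have h3 : g⁻¹ * h * g ∈ stb φ := by
      change (g⁻¹ * h * g) • φ = φ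
      rw [mul_smul, mul_smul, hst', inv_smul_smul]
    have h4 := (hε ⟨_, h3⟩).1 (hcon ⟨_, h3⟩ (Subgroup.mem_subgroupOf.2 (mem_cj hd)))
    have h5 : (g * (g⁻¹ * h * g)) s = (h * g) s := by
      rw [← mul_assoc, ← mul_assoc, mul_inv_cancel, one_mul]
    have h6 : g ((g⁻¹ * h * g) s) = h (g s) := h5
    rw [← h6]
    exact congrArg g h4

private theorem cc_fix (p : ℕ) [Fact p.Prime] {K : Type} [Field K] [NumberField K]
    (φ : K →+* AlgebraicClosure ℚ) (w : HeightOneSpectrum (𝓞 K)) (g : GQ)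
    (hg : IsPl p (g • φ) w) (x : Kˣ) (hx : LSq w x) (s : AlgebraicClosure ℚ)
    (hs : s ^ 2 = φ (x : K)) (u : stb φ) (hu : u ∈ Ud p g φ) : (u : GQ) s = s := by
  obtain ⟨d, hd, hdu⟩ := mem_cj_iff.1 (Subgroup.mem_subgroupOf.1 hu)
  have hu2 : (u : GQ) • φ = φ := u.2
  have hdg : d * g = g * (u : GQ) := by
    rw [← hdu]
    group
  have hst : d ∈ stb (g • φ) := by
    change d • (g • φ) = g • φ
    rw [← mul_smul, hdg, mul_smul, hu2]
  have hs' : (g s) ^ 2 = (g • φ) (x : K) := by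
    rw [← map_pow, hs]
    rfl
  have h1 := fix_of_lsq p (g • φ) hg x (g s) hs' hx d hd hst
  have h2 : (d * g) s = (g * (u : GQ)) s := by rw [hdg]
  have h3 : d (g s) = g ((u : GQ) s) := h2
  rw [h1] at h3
  exact (g.injective h3).symm

theorem exists_lcl (T : Finset ℕ) (K : NF) (φ : K.F →+* AlgebraicClosure ℚ)
    (V : Finset (HeightOneSpectrum (𝓞 K.F))) (hV2 : ∀ v ∈ V, (2 : 𝓞 K.F) ∉ v.asIdeal)
    (τ : HeightOneSpectrum (𝓞 K.F) → Ty) (x : (K.F)ˣ)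
    (hxs : ∀ v ∈ V, τ v = Ty.s → ¬ LSq v x) (hxo : ∀ v ∈ V, τ v ≠ Ty.s → LSq v x)
    (hne : ∃ v ∈ V, τ v = Ty.s) :
    ∃ (s : AlgebraicClosure ℚ) (D : CocD (stb φ)), s ^ 2 = φ (x : K.F) ∧ D.Good ∧
      (∀ g : stb φ, D.ε g = 1 ↔ (g : GQ) s = s) ∧
      (∀ U ∈ res (stb φ) (famT T), Cyc U ∨ D.Triv U) ∧ ∀ v ∈ V, Lcl (τ v) φ D v := by
  classical
  choose p hp g hg using cc_exists_g K φ
  set T' : Finset ℕ := T ∪ V.image p with hT'
  obtain ⟨s, ε, hs, hεo, hε⟩ := exists_eps K.F φ x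
  have hJo : IsOpen (stb φ : Set GQ) := stab_open K.F φ
  have hG := nice_rat T'
  have hGJ := hG.sub hJo
  obtain ⟨D, hDε, hD, hDU⟩ := exists_coc hGJ ε hεo (by
    obtain ⟨w, hw, hws⟩ := hne
    obtain ⟨u, -, hu⟩ := cc_exists_u (p w) φ w (g w) (hg w) x (hxs w hw hws) s hs ε hε
    exact ⟨u, hu⟩)
  have hDε' : ∀ g : stb φ, D.ε g = 1 ↔ (g : GQ) s = s := by
    rw [hDε]
    exact hε
  refine ⟨s, D, hs, hD, hDε', ?_, ?_⟩
  · intro U hU
    exact hDU U (cc_famT_mono Finset.subset_union_left hU)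
  · intro w hw
    refine ⟨p w, hp w, g w, hg w, ?_, ?_, ?_⟩
    · have hmem : Ud (p w) (g w) φ ∈ res (stb φ) (famT T') := by
        change ((cj (g w) (decomp ℚ_[p w] (emb (p w)))).subgroupOf (stb φ)).map (stb φ).subtype ∈
          famT T'
        rw [Subgroup.subgroupOf_map_subtype]
        refine Or.inr ⟨p w, hp w, (g w)⁻¹, ?_, ?_⟩
        · exact Finset.mem_union_right _ (Finset.mem_image_of_mem p hw)
        · intro h hh
          obtain ⟨u, ⟨hu1, -⟩, rfl⟩ := mem_cj_iff.1 hh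
          obtain ⟨d, hd, rfl⟩ := mem_cj_iff.1 hu1
          have : (g w)⁻¹⁻¹ * ((g w)⁻¹ * d * g w) * (g w)⁻¹ = d := by group
          rw [this]
          exact hd
      exact (hDU _ hmem).resolve_left (not_cyc (p w) φ w (g w) (hg w) (hV2 w hw))
    · intro ht
      exact cc_exists_u (p w) φ w (g w) (hg w) x (hxs w hw ht) s hs D.ε hDε'
    · intro ht u hu
      exact (hDε' u).2 (cc_fix (p w) φ w (g w) (hg w) x (hxo w hw ht) s hs u hu)

end Pool.Agent.MX
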