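import Pool.Agent.MX.I.Defs
import Pool.Agent.MD.P.TSet
import Pool.Agent.LD.L.Marks

/-!
# MX/P-Defs: the conditions on the places over `v`, decomposition groups
-/

namespace Pool.Agent.MX

open NumberField IsDedekindDomain Pool.Agent.HWR Pool.Agent.QD Pool.Agent.H73.DU Pool.Agent.LD
  Pool.Agent.MD

/-- the condition of type `t` on the places of `F` over `v`: all local degrees are powers of `2`, and
`s`: at most one of them is `1`; `r`: `v` is unramified; `i`: all residue degrees are `1` -/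
def Cnd (t : Ty) {K : Type} (F : Type) [Field K] [NumberField K] [Field F] [NumberField F]
    [Algebra K F] (v : HeightOneSpectrum (𝓞 K)) : Prop :=
  (∀ w : HeightOneSpectrum (𝓞 F), Over v w → ∃ k, locDeg K w = 2 ^ k) ∧
  (t = Ty.s → ∀ w w' : HeightOneSpectrum (𝓞 F), Over v w → Over v w' → locDeg K w = 1 →
    locDeg K w' = 1 → w = w') ∧
  (t = Ty.r → ∀ w : HeightOneSpectrum (𝓞 F), Over v w → w.asIdeal.ramificationIdx (𝓞 K) = 1) ∧
  (t = Ty.i → ∀ w : HeightOneSpectrum (𝓞 F), Over v w → w.asIdeal.inertiaDeg (𝓞 K) = 1)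

/-- the extensions allowed in the relation -/
def OkT (K : Pool.Agent.H73.AL.NF) (V : Finset (HeightOneSpectrum (𝓞 K.F)))
    (τ : HeightOneSpectrum (𝓞 K.F) → Ty) (F : Pool.Agent.H73.AL.NF) : Prop :=
  ∃ _ : Algebra K.F F.F, Module.finrank K.F F.F ∣ 18 ∧ 2 ≤ Module.finrank K.F F.F ∧
    ∀ v ∈ V, Cnd (τ v) F.F v

/-- the decomposition group of the place induced by `g • φ`, in the stabilizer of `φ` -/
noncomputable def Ud (p : ℕ) [Fact p.Prime] (g : GQ) {K : Type} [Field K]
    (φ : K →+* AlgebraicClosure ℚ) : Subgroup (stb φ) :=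
  (cj g (decomp ℚ_[p] (emb p))).subgroupOf (stb φ)

/-- the orbit of `y` under `U` -/
def Orb {J X : Type} [Group J] [MulAction J X] (U : Subgroup J) (y : X) : Set X :=
  {z | ∃ u ∈ U, u • y = z}

/-- the place `w` of `K` is induced by `g • φ`, the cocycles are coboundaries on its decomposition
group, and the sign is nontrivial there exactly for the type `s` -/
def Lcl (t : Ty) {K : Type} [Field K] [NumberField K] (φ : K →+* AlgebraicClosure ℚ)
    (D : CocD (stb φ)) (w : HeightOneSpectrum (𝓞 K)) : Prop :=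
  ∃ (p : ℕ) (_ : Fact p.Prime) (g : GQ), IsPl p (g • φ) w ∧ D.Triv (Ud p g φ) ∧
    (t = Ty.s → ∃ u ∈ Ud p g φ, D.ε u ≠ 1) ∧ (t ≠ Ty.s → ∀ u ∈ Ud p g φ, D.ε u = 1)

/-- the action on `X` depends only on the values of the sign and of the two cocycles -/
def ActD {J : Type} [Group J] (D : CocD J) (X : Type) [MulAction J X] : Prop :=
  ∀ u u' : J, D.ε u = D.ε u' → D.z1 u = D.z1 u' → D.z2 u = D.z2 u' → ∀ y : X, u • y = u' • y

/-- uniqueness of the fixed points of reflections -/
def UqF {J : Type} [Group J] (D : CocD J) (X : Type) [MulAction J X] : Prop :=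
  ∀ U : Subgroup J, D.Triv U → ∀ y y' : X, ∀ u ∈ U, ∀ u' ∈ U, D.ε u ≠ 1 → D.ε u' ≠ 1 →
    u • y = y → u' • y' = y' → y = y'

end Pool.Agent.MX
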