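import Pool.Agent.MX.P.Defs
import Pool.Agent.LD.L.Deg
import Pool.Agent.QD.N4.Odd
import Pool.Agent.MD.P.Sum

/-!
# MX/P-Quad: the local conditions in quadratic extensions
-/

namespace Pool.Agent.MX

open NumberField IsDedekindDomain Pool.Agent.HWR Pool.Agent.QD Pool.Agent.QD.In Pool.Agent.LD
  Pool.Agent.MD

/-- the two cases in a quadratic extension -/
private theorem qd_cases {K : Type} [Field K] [NumberField K] (L : Type) [Field L] [NumberField L]
    [Algebra K L] (hdeg : Module.finrank K L = 2) (v : HeightOneSpectrum (𝓞 K)) :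
    (Splits K L v ∧ ∀ w : HeightOneSpectrum (𝓞 L), Over v w → locDeg K w = 1) ∨
      (¬ Splits K L v ∧ ∀ w : HeightOneSpectrum (𝓞 L), Over v w → locDeg K w = 2 ∧
        v.asIdeal.primesOver (𝓞 L) = {w.asIdeal}) := by
  classical
  set p : Ideal (𝓞 K) := v.asIdeal with hp
  have hp0 : p ≠ ⊥ := v.ne_bot
  have hmax : p.IsMaximal := v.isMaximal
  have hfin : Finite (p.primesOver (𝓞 L)) := by
    rw [← IsDedekindDomain.coe_primesOverFinset hp0 (𝓞 L)]
    exact Finset.finite_toSet _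
  let _ : Fintype (p.primesOver (𝓞 L)) := Fintype.ofFinite _
  have hrank : Module.finrank (𝓞 K) (𝓞 L) = 2 := by
    rw [← hdeg]
    exact (IsFractionRing.finrank_eq (𝓞 K) K (𝓞 L) L).symm
  have hsum := Ideal.sum_ramification_inertia_eq_finrank p (𝓞 L)
  rw [hrank] at hsum
  have hpos : ∀ q : p.primesOver (𝓞 L),
      1 ≤ q.1.ramificationIdx (𝓞 K) * q.1.inertiaDeg (𝓞 K) := by
    intro q
    have : q.1.IsPrime := q.2.1
    exact Nat.mul_pos (q.1.ramificationIdx_pos (𝓞 K)) (q.1.inertiaDeg_pos (𝓞 K))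
  have hcard : Fintype.card (p.primesOver (𝓞 L)) ≤ 2 := by
    rw [← hsum, ← Finset.card_univ, Finset.card_eq_sum_ones]
    exact Finset.sum_le_sum fun q _ => hpos q
  have hcard0 : Fintype.card (p.primesOver (𝓞 L)) ≠ 0 := by
    intro h0
    have := Fintype.card_eq_zero_iff.mp h0
    rw [Finset.univ_eq_empty, Finset.sum_empty] at hsum
    exact absurd hsum (by norm_num)
  have hsp : Splits K L v ↔ Fintype.card (p.primesOver (𝓞 L)) = 2 := by
    unfold Splits
    rw [← Nat.card_coe_set_eq, Nat.card_eq_fintype_card]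
  have hcases : Fintype.card (p.primesOver (𝓞 L)) = 2 ∨
      Fintype.card (p.primesOver (𝓞 L)) = 1 := by omega
  rcases hcases with h2 | h1
  · left
    refine ⟨hsp.2 h2, fun w hw => ?_⟩
    have h3 : ∑ q : p.primesOver (𝓞 L), (1 : ℕ) =
        ∑ q : p.primesOver (𝓞 L), q.1.ramificationIdx (𝓞 K) * q.1.inertiaDeg (𝓞 K) := by
      rw [hsum, ← Finset.card_eq_sum_ones, Finset.card_univ, h2]
    have h4 := (Finset.sum_eq_sum_iff_of_le (fun q _ => hpos q)).mp h3
      ⟨w.asIdeal, ⟨w.isPrime, ⟨hw.symm⟩⟩⟩ (Finset.mem_univ _)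
    exact h4.symm
  · right
    refine ⟨fun hs => by have := hsp.1 hs; omega, fun w hw => ?_⟩
    obtain ⟨u, hu⟩ := Fintype.card_eq_one_iff.mp h1
    have hwu : (⟨w.asIdeal, ⟨w.isPrime, ⟨hw.symm⟩⟩⟩ : p.primesOver (𝓞 L)) = u := hu _
    have h6 := Fintype.sum_eq_single (f := fun q : p.primesOver (𝓞 L) =>
      q.1.ramificationIdx (𝓞 K) * q.1.inertiaDeg (𝓞 K)) u (fun q hq => absurd (hu q) hq)
    rw [hsum] at h6
    have h7 : u.1 = w.asIdeal := by rw [← hwu]
    have h8 : u.1.ramificationIdx (𝓞 K) * u.1.inertiaDeg (𝓞 K) = locDeg K w := by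
      unfold locDeg
      rw [h7]
    refine ⟨by rw [← h8]; exact h6.symm, ?_⟩
    ext P
    rw [Set.mem_singleton_iff]
    constructor
    · intro hP
      have h9 := hu ⟨P, hP⟩
      rw [← h7, ← h9]
    · rintro rfl
      exact ⟨w.isPrime, ⟨hw.symm⟩⟩

private theorem qd_norm {K : Type} [Field K] [NumberField K] (L : Type) [Field L] [NumberField L]
    [Algebra K L] (v : HeightOneSpectrum (𝓞 K)) (w : HeightOneSpectrum (𝓞 L)) (hw : Over v w) :
    Ideal.absNorm w.asIdeal = nrm v ^ (w.asIdeal.inertiaDeg (𝓞 K)) := by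
  have hv : v.asIdeal.IsMaximal := v.isMaximal
  have hwm : w.asIdeal.IsMaximal := w.isMaximal
  have : w.asIdeal.LiesOver v.asIdeal := ⟨hw.symm⟩
  rw [← Ideal.absNorm_relNorm (𝓞 K) (𝓞 L) w.asIdeal,
    Ideal.relNorm_eq_pow_of_isMaximal w.asIdeal v.asIdeal, map_pow]
  rfl

theorem cnd_quad {K : Type} [Field K] [NumberField K] (t : Ty) (v : HeightOneSpectrum (𝓞 K))
    (h2 : (2 : 𝓞 K) ∉ v.asIdeal) (x : Kˣ) (hns : ¬ IsSquare x) (hx : uK v x ≠ fb t) (L : Type)
    [Field L] [NumberField L] [Algebra K L] (θ : L) (hL : Module.finrank K L = 2)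
    (hθ : θ ^ 2 = algebraMap K L (x : K)) : Cnd t L v := by
  have hty : ty K L v = uK v x := N4.ty_odd' L hL x θ hθ hns v h2
  have hnv : 2 ≤ nrm v := by
    have hone : nrm v ≠ 1 := by
      unfold nrm
      rw [Ne, Ideal.absNorm_eq_one_iff]
      exact v.isPrime.ne_top
    have hzero : nrm v ≠ 0 := by
      unfold nrm
      rw [Ne, Ideal.absNorm_eq_zero_iff]
      exact v.ne_bot
    omega
  rcases qd_cases L hL v with ⟨h3, h4⟩ | ⟨h3, h4⟩
  · have h5 : uK v x = 1 := by
      rw [← hty]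
      unfold ty
      rw [if_pos h3]
    refine ⟨fun w hw => ⟨0, by rw [h4 w hw, pow_zero]⟩, ?_, ?_, ?_⟩
    · rintro rfl
      exact absurd h5 hx
    · intro _ w hw
      exact Nat.eq_one_of_mul_eq_one_right (h4 w hw)
    · intro _ w hw
      exact Nat.eq_one_of_mul_eq_one_left (h4 w hw)
  · refine ⟨fun w hw => ⟨1, by rw [(h4 w hw).1, pow_one]⟩, ?_, ?_, ?_⟩
    · intro _ w w' hw _ h5
      rw [(h4 w hw).1] at h5
      norm_num at h5
    · rintro rfl w hw
      have h5 : uK v x = -1 := by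
        rw [← hty]
        unfold ty
        rw [if_neg h3]
        split_ifs with h6
        · rfl
        · exfalso
          apply hx
          rw [← hty]
          unfold ty
          rw [if_neg h3, if_neg h6]
          rfl
      have h6 : ∃ w : Ideal (𝓞 L), v.asIdeal.primesOver (𝓞 L) = {w} ∧
          Ideal.absNorm w = nrm v ^ 2 := by
        by_contra hcon
        rw [← hty] at h5
        unfold ty at h5
        rw [if_neg h3, if_neg hcon] at h5
        norm_num at h5
      obtain ⟨P, hP1, hP2⟩ := h6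
      have h7 : P = w.asIdeal := by
        have h8 := (h4 w hw).2
        rw [hP1, Set.singleton_eq_singleton_iff] at h8
        exact h8
      rw [h7, qd_norm L v w hw] at hP2
      have h8 : w.asIdeal.inertiaDeg (𝓞 K) = 2 := Nat.pow_right_injective hnv hP2
      have h9 : w.asIdeal.ramificationIdx (𝓞 K) * w.asIdeal.inertiaDeg (𝓞 K) = 2 := (h4 w hw).1
      rw [h8] at h9
      omega
    · rintro rfl w hw
      have h9 : w.asIdeal.ramificationIdx (𝓞 K) * w.asIdeal.inertiaDeg (𝓞 K) = 2 := (h4 w hw).1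
      have h10 : w.asIdeal.inertiaDeg (𝓞 K) ∣ 2 := ⟨_, by rw [mul_comm]; exact h9.symm⟩
      rcases (Nat.dvd_prime Nat.prime_two).1 h10 with h11 | h11
      · exact h11
      · exfalso
        apply hx
        rw [← hty]
        unfold ty
        rw [if_neg h3, if_pos ⟨w.asIdeal, (h4 w hw).2, by rw [qd_norm L v w hw, h11]⟩]
        rfl

end Pool.Agent.MX
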