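import Pool.Agent.MX.P.Defs
import Pool.Agent.MD.P.Sum
import Pool.Agent.LD.L.Deg

/-!
# MX/P-Tow: the local conditions in towers

Places below a place, and transitivity of the conditions `Cnd`.
-/

namespace Pool.Agent.MX

open NumberField IsDedekindDomain Pool.Agent.HWR Pool.Agent.QD Pool.Agent.LD Pool.Agent.MD

theorem exists_under {K F : Type} [Field K] [NumberField K] [Field F] [NumberField F]
    [Algebra K F] (w : HeightOneSpectrum (𝓞 F)) : ∃ v : HeightOneSpectrum (𝓞 K), Over v w := by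
  have hwp : w.asIdeal.IsPrime := w.isPrime
  have hne : w.asIdeal.comap (algebraMap (𝓞 K) (𝓞 F)) ≠ ⊥ := fun h0 =>
    w.ne_bot (Ideal.eq_bot_of_comap_eq_bot h0)
  exact ⟨⟨w.asIdeal.comap (algebraMap (𝓞 K) (𝓞 F)), Ideal.IsPrime.comap _, hne⟩, rfl⟩

theorem over_unique {K F : Type} [Field K] [NumberField K] [Field F] [NumberField F]
    [Algebra K F] {v v' : HeightOneSpectrum (𝓞 K)} {w : HeightOneSpectrum (𝓞 F)}
    (h : Over v w) (h' : Over v' w) : v = v' := by
  apply HeightOneSpectrum.ext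
  unfold Over at h h'
  rw [← h, ← h']

private theorem over_self {K : Type} [Field K] [NumberField K] {v w : HeightOneSpectrum (𝓞 K)}
    (h : Over v w) : w = v := by
  apply HeightOneSpectrum.ext
  unfold Over at h
  rw [← h]
  ext x
  exact Iff.rfl

theorem cnd_self {K : Type} [Field K] [NumberField K] (t : Ty) (v : HeightOneSpectrum (𝓞 K)) :
    Cnd t K v := by
  have h1 : ∀ w : HeightOneSpectrum (𝓞 K),
      w.asIdeal.ramificationIdx (𝓞 K) * w.asIdeal.inertiaDeg (𝓞 K) = 1 := fun w => locDeg_self K w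
  refine ⟨fun w _ => ⟨0, ?_⟩, fun _ w w' hw hw' _ _ => ?_, fun _ w _ => ?_, fun _ w _ => ?_⟩
  · rw [locDeg_self, pow_zero]
  · rw [over_self hw, over_self hw']
  · exact Nat.eq_one_of_mul_eq_one_right (h1 w)
  · exact Nat.eq_one_of_mul_eq_one_left (h1 w)

private theorem tow_below {K : Type} (F M : Type) [Field K] [NumberField K] [Field F]
    [NumberField F] [Field M] [NumberField M] [Algebra K F] [Algebra F M] [Algebra K M]
    [IsScalarTower K F M] (v : HeightOneSpectrum (𝓞 K)) (W : HeightOneSpectrum (𝓞 M))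
    (hW : Over v W) : ∃ w : HeightOneSpectrum (𝓞 F), Over v w ∧ Over w W := by
  obtain ⟨w, hw⟩ := exists_under (K := F) W
  obtain ⟨v', hv'⟩ := exists_under (K := K) w
  have h1 : v' = v := over_unique (over_trans hv' hw) hW
  rw [h1] at hv'
  exact ⟨w, hv', hw⟩

theorem cnd_trans {K : Type} (F M : Type) [Field K] [NumberField K] [Field F] [NumberField F]
    [Field M] [NumberField M] [Algebra K F] [Algebra F M] [Algebra K M] [IsScalarTower K F M]
    (t : Ty) (v : HeightOneSpectrum (𝓞 K)) (h1 : Cnd t F v)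
    (h2 : ∀ w : HeightOneSpectrum (𝓞 F), Over v w → Cnd t M w) : Cnd t M v := by
  refine ⟨fun W hW => ?_, fun ht W W' hW hW' hd hd' => ?_, fun ht W hW => ?_, fun ht W hW => ?_⟩
  · obtain ⟨w, hw, hwW⟩ := tow_below F M v W hW
    obtain ⟨a, ha⟩ := h1.1 w hw
    obtain ⟨b, hb⟩ := (h2 w hw).1 W hwW
    refine ⟨a + b, ?_⟩
    rw [locDeg_tower K F M w W hwW, ha, hb, pow_add]
  · obtain ⟨w, hw, hwW⟩ := tow_below F M v W hW
    obtain ⟨w', hw', hwW'⟩ := tow_below F M v W' hW'
    rw [locDeg_tower K F M w W hwW] at hd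
    rw [locDeg_tower K F M w' W' hwW'] at hd'
    have e : w = w' := h1.2.1 ht w w' hw hw' (Nat.eq_one_of_mul_eq_one_right hd)
      (Nat.eq_one_of_mul_eq_one_right hd')
    subst e
    exact (h2 w hw).2.1 ht W W' hwW hwW' (Nat.eq_one_of_mul_eq_one_left hd)
      (Nat.eq_one_of_mul_eq_one_left hd')
  · obtain ⟨w, hw, hwW⟩ := tow_below F M v W hW
    have hl : W.asIdeal.LiesOver w.asIdeal := ⟨hwW.symm⟩
    rw [Ideal.ramificationIdx_tower (R := 𝓞 K) w.asIdeal W.asIdeal, h1.2.2.1 ht w hw,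
      (h2 w hw).2.2.1 ht W hwW]
  · obtain ⟨w, hw, hwW⟩ := tow_below F M v W hW
    have hl : W.asIdeal.LiesOver w.asIdeal := ⟨hwW.symm⟩
    rw [Ideal.inertiaDeg_tower (R := 𝓞 K) w.asIdeal W.asIdeal, h1.2.2.2 ht w hw,
      (h2 w hw).2.2.2 ht W hwW]

end Pool.Agent.MX
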