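import Pool.Agent.MX.P.Rel
import Pool.Agent.MX.P.Cho
import Pool.Agent.MX.P.Quad
import Pool.Agent.MX.P.Tow
import Pool.Agent.MX.E.Fin
import Pool.Agent.QD.F.Main
import Pool.Agent.MD.P.Ind

/-!
# MX/P-Ind: the descent and its iteration
-/

namespace Pool.Agent.MX

open NumberField IsDedekindDomain Pool.Agent.HWR Pool.Agent.QD Pool.Agent.H73.DU
  Pool.Agent.H73.AL Pool.Agent.LD Pool.Agent.MD

private theorem two_not {K : Type} [Field K] [NumberField K] {T : Finset ℕ} (h2 : 2 ∈ T)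
    {v : HeightOneSpectrum (𝓞 K)} (hv : Away K T v) : (2 : 𝓞 K) ∉ v.asIdeal := by
  have := hv 2 h2
  exact_mod_cast this

private theorem pi_away {K F : Type} [Field K] [NumberField K] [Field F] [NumberField F]
    [Algebra K F] {T : Finset ℕ} {v : HeightOneSpectrum (𝓞 K)} {w : HeightOneSpectrum (𝓞 F)}
    (h : Over v w) (hv : Away K T v) : Away F T w := by
  intro p hp hmem
  refine hv p hp ?_
  rw [← h, Ideal.mem_comap, map_natCast]
  exact hmem

private theorem pi_nonsq (K : Type) [Field K] [NumberField K] : ∃ x : Kˣ, ¬ IsSquare x := by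
  obtain ⟨P, hP1, hP2⟩ := Ring.not_isField_iff_exists_prime.1 (RingOfIntegers.not_isField K)
  set v : HeightOneSpectrum (𝓞 K) := ⟨P, hP2, hP1⟩ with hv
  obtain ⟨π, hπ⟩ := v.valuation_exists_uniformizer K
  have hπ0 : π ≠ 0 := by
    rintro rfl
    rw [map_zero] at hπ
    exact WithZero.exp_ne_zero hπ.symm
  refine ⟨Units.mk0 π hπ0, ?_⟩
  rintro ⟨y, hy⟩
  have h1 : ordK v (Units.mk0 π hπ0) = 1 := by
    rw [ordK_eq_iff]
    simpa using hπ
  rw [hy, ordK_mul] at h1
  omega

private theorem exists_new (K : Type) [Field K] [NumberField K] (T : Finset ℕ)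
    (hTp : ∀ p ∈ T, p.Prime) (V : Finset (HeightOneSpectrum (𝓞 K))) :
    ∃ v : HeightOneSpectrum (𝓞 K), Away K T v ∧ v ∉ V := by
  classical
  have hfin := In.not_away_finite K T hTp
  obtain ⟨x, hx⟩ := pi_nonsq K
  obtain ⟨v, h1, -⟩ := exists_inert (hfin.toFinset ∪ V) x hx
  refine ⟨v, ?_, fun h => h1 (Finset.mem_union_right _ h)⟩
  by_contra hv
  exact h1 (Finset.mem_union_left _ (hfin.mem_toFinset.2 hv))

section

variable (T : Finset ℕ) (hTp : ∀ p ∈ T, p.Prime)
    (hT : ∀ p : ℕ, p.Prime → p < 101 → p ∈ T) (D : LocData T) (a : ℕ → ℝ)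
    (ha : ∀ q : ℕ, |a q| ≤ 2 * Real.sqrt q) (hfr : FrobRel T a)

include hTp hT ha hfr

private theorem desc_step' (K : Type) [Field K] [NumberField K]
    (V : Finset (HeightOneSpectrum (𝓞 K))) (hV : ∀ v ∈ V, Away K T v)
    (τ : HeightOneSpectrum (𝓞 K) → Ty) (hne : ∃ v ∈ V, τ v = Ty.s)
    (h : ∀ (F : Type) [Field F] [NumberField F] [Algebra K F],
      Module.finrank K F ∣ 18 → 2 ≤ Module.finrank K F → (∀ v ∈ V, Cnd (τ v) F v) → D.HW a F) :
    D.HW a K := by
  have h2 : 2 ∈ T := hT 2 Nat.prime_two (by norm_num)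
  have hV2 : ∀ v ∈ V, (2 : 𝓞 K) ∉ v.asIdeal := fun v hv => two_not h2 (hV v hv)
  have hq : HWT D a V τ := by
    intro x hx L _ _ _ θ hL hθ
    have hns : ¬ IsSquare x := by
      rintro ⟨y, rfl⟩
      obtain ⟨v, hv, hs⟩ := hne
      apply hx v hv
      rw [hs, ← pow_two, uK_sq]
      rfl
    refine h L ?_ (by rw [hL]) fun v hv => cnd_quad (τ v) v (hV2 v hv) x hns (hx v hv) L θ hL hθ
    rw [hL]
    norm_num
  obtain ⟨x, hxs, hxo⟩ := choose_x hTp h2 V hV τ
  obtain ⟨A, B, hAB, hrel⟩ := rel_okT T ⟨K⟩ V hV2 τ x hxs hxo hne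
  have hEv : ∀ F' ∈ A ++ B, D.HW a F'.F := by
    intro F' hF'
    obtain ⟨inst, g1, g2, g3⟩ := hAB F' hF'
    exact @h F'.F _ _ inst g1 g2 g3
  have hM : D.MER a K := MER_of_rel D hTp hT ha ⟨K⟩ hrel
    (fun F' hF' => hEv F' (List.mem_append.2 (Or.inl hF')))
    (fun F' hF' => hEv F' (List.mem_append.2 (Or.inr hF')))
  exact hw_of_merT K T hTp hT D a ha (sqRel_of_frob K T a hfr) V hV τ hne hq hM

theorem desc_step (K : Type) [Field K] [NumberField K]
    (V : Finset (HeightOneSpectrum (𝓞 K))) (hV : ∀ v ∈ V, Away K T v)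
    (τ : HeightOneSpectrum (𝓞 K) → Ty)
    (h : ∀ (F : Type) [Field F] [NumberField F] [Algebra K F],
      Module.finrank K F ∣ 18 → 2 ≤ Module.finrank K F → (∀ v ∈ V, Cnd (τ v) F v) → D.HW a F) :
    D.HW a K := by
  classical
  obtain ⟨v0, hv0, hv0V⟩ := exists_new K T hTp V
  refine desc_step' T hTp hT D a ha hfr K (insert v0 V) ?_ (Function.update τ v0 Ty.s)
    ⟨v0, Finset.mem_insert_self _ _, Function.update_self _ _ _⟩ ?_
  · intro v hv
    rcases Finset.mem_insert.1 hv with rfl | hv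
    · exact hv0
    · exact hV v hv
  · intro F _ _ _ h1 h2 h3
    refine h F h1 h2 fun v hv => ?_
    have h4 := h3 v (Finset.mem_insert_of_mem hv)
    rwa [Function.update_of_ne (by rintro rfl; exact hv0V hv)] at h4

theorem desc_ind (M : ℕ) : ∀ (K : Type) [Field K] [NumberField K]
    (V : Finset (HeightOneSpectrum (𝓞 K))) (_ : ∀ v ∈ V, Away K T v)
    (τ : HeightOneSpectrum (𝓞 K) → Ty)
    (_ : ∀ (F : Type) [Field F] [NumberField F] [Algebra K F],
      2 ^ M ≤ Module.finrank K F → Module.finrank K F ∣ 18 ^ M → (∀ v ∈ V, Cnd (τ v) F v) →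
      D.HW a F), D.HW a K := by
  classical
  induction M with
  | zero =>
    intro K _ _ V hV τ h
    refine h K ?_ ?_ fun v _ => cnd_self (τ v) v
    · rw [Module.finrank_self, pow_zero]
    · rw [Module.finrank_self, pow_zero]
  | succ M ih =>
    intro K _ _ V hV τ h
    refine desc_step T hTp hT D a ha hfr K V hV τ ?_
    intro F _ _ _ c1 c2 c3
    have hex : ∀ w : HeightOneSpectrum (𝓞 F), ∃ v : HeightOneSpectrum (𝓞 K), Over v w :=
      fun w => exists_under w
    choose un hun using hex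
    refine ih F (V.biUnion fun v => pls F v) ?_ (fun w => τ (un w)) ?_
    · intro w hw
      obtain ⟨v, hv, hvw⟩ := Finset.mem_biUnion.1 hw
      exact pi_away (mem_pls.1 hvw) (hV v hv)
    · intro F' _ _ _ g1 g2 g3
      let _ : Algebra K F' := ((algebraMap F F').comp (algebraMap K F)).toAlgebra
      have _ : IsScalarTower K F F' := IsScalarTower.of_algebraMap_eq' rfl
      have hmul : Module.finrank K F * Module.finrank F F' = Module.finrank K F' :=
        Module.finrank_mul_finrank K F F'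
      refine h F' ?_ ?_ fun v hv => ?_
      · rw [← hmul, pow_succ, mul_comm (2 ^ M) 2]
        exact Nat.mul_le_mul c2 g1
      · rw [← hmul, pow_succ, mul_comm (18 ^ M) 18]
        exact mul_dvd_mul c1 g2
      · refine cnd_trans F F' (τ v) v (c3 v hv) fun w hw => ?_
        have h5 := g3 w (Finset.mem_biUnion.2 ⟨v, hv, mem_pls.2 hw⟩)
        rwa [over_unique (hun w) hw] at h5

/-- arbitrary local conditions at all places of norm at most `φ([F : K])` -/
theorem arb_main (K : Type) [Field K] [NumberField K] (τ : HeightOneSpectrum (𝓞 K) → Ty)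
    (φ : ℕ → ℕ) (M : ℕ)
    (h : ∀ (F : Type) [Field F] [NumberField F] [Algebra K F], 2 ^ M ≤ Module.finrank K F →
      Module.finrank K F ∣ 18 ^ M →
      (∀ v : HeightOneSpectrum (𝓞 K), Away K T v → nrm v ≤ φ (Module.finrank K F) →
        Cnd (τ v) F v) → D.HW a F) : D.HW a K := by
  classical
  set N : ℕ := (Finset.range (18 ^ M + 1)).sup φ with hN
  have hfin : {v : HeightOneSpectrum (𝓞 K) | Away K T v ∧ nrm v ≤ N}.Finite := by
    have h1 := Ideal.finite_setOfPred_absNorm_le (S := 𝓞 K) N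
    refine Set.Finite.of_finite_image (f := fun v : HeightOneSpectrum (𝓞 K) => v.asIdeal)
      (h1.subset ?_) ?_
    · rintro _ ⟨v, hv, rfl⟩
      exact hv.2
    · intro v _ v' _ h
      exact HeightOneSpectrum.ext h
  refine desc_ind T hTp hT D a ha hfr M K hfin.toFinset ?_ τ ?_
  · intro v hv
    exact (hfin.mem_toFinset.1 hv).1
  · intro F _ _ _ g1 g2 g3
    refine h F g1 g2 fun v hv hn => ?_
    refine g3 v (hfin.mem_toFinset.2 ⟨hv, hn.trans ?_⟩)
    refine Finset.le_sup (f := φ) (Finset.mem_range.2 (Nat.lt_succ_of_le ?_))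
    exact Nat.le_of_dvd (pow_pos (by norm_num) _) g2

end

end Pool.Agent.MX
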