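import Pool.Agent.MX.P.Defs
import Pool.Agent.MD.P.Coc
import Pool.Agent.LD.L.Deg
import Pool.Agent.LD.L.Apx

/-!
# MX/P-Pt: places of even local degree (version of `even_pt`, MD/P/Pt, for a given point)
-/

namespace Pool.Agent.MX

open NumberField IsDedekindDomain Pool.Agent.HWR Pool.Agent.QD Pool.Agent.H73.DU
  Pool.Agent.H73.AL Pool.Agent.LD Pool.Agent.MD

theorem even_at (K : NF) (φ : K.F →+* AlgebraicClosure ℚ) (x : (K.F)ˣ)
    (s : AlgebraicClosure ℚ) (hs : s ^ 2 = φ (x : K.F)) (D : CocD (stb φ))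
    (hε : ∀ g : stb φ, D.ε g = 1 ↔ (g : GQ) s = s) (w : HeightOneSpectrum (𝓞 K.F))
    (hx : ¬ LSq w x) (p : ℕ) [Fact p.Prime] (g : GQ) (X : Type) [MulAction (stb φ) X]
    (F : NF) [Algebra K.F F.F] (ψ : F.F →+* AlgebraicClosure ℚ)
    (hψ : ψ.comp (algebraMap K.F F.F) = φ) (x0 : X)
    (hst : stb ψ = (MulAction.stabilizer (stb φ) x0).map (stb φ).subtype) (j : stb φ)
    (w' : HeightOneSpectrum (𝓞 F.F)) (hover : Over w w') (hw' : IsPl p ((g * (j : GQ)) • ψ) w')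
    (hy : ∀ u ∈ Ud p g φ, u • (j • x0) = j • x0 → D.ε u = 1) : 2 ∣ locDeg K.F w' := by
  have hcomp : ((g * (j : GQ)) • ψ).comp (algebraMap K.F F.F) = g • φ := by
    ext a
    change g ((j : GQ) (ψ (algebraMap K.F F.F a))) = g (φ a)
    have h1 : ψ (algebraMap K.F F.F a) = φ a := RingHom.congr_fun hψ a
    have h2 : (j : GQ) • φ = φ := MulAction.mem_stabilizer_iff.1 j.2
    have h3 : (j : GQ) (φ a) = φ a := RingHom.congr_fun h2 a
    rw [h1, h3]
  refine two_dvd_of_lsq F.F x w hx w' hover ?_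
  apply lsq_of_fix p ((g * (j : GQ)) • ψ) hw' _ (g s)
  · have h1 : ((g * (j : GQ)) • ψ) (algebraMap K.F F.F (x : K.F)) = g (φ (x : K.F)) :=
      RingHom.congr_fun hcomp (x : K.F)
    rw [← map_pow, hs]
    exact h1.symm
  · intro h hd hst'
    have h1 : h • ((g * (j : GQ)) • ψ) = (g * (j : GQ)) • ψ := MulAction.mem_stabilizer_iff.1 hst'
    have h2 : ((j : GQ)⁻¹ * (g⁻¹ * h * g) * (j : GQ)) • ψ = ψ := by
      have e1 : (j : GQ)⁻¹ * (g⁻¹ * h * g) * (j : GQ) = (g * (j : GQ))⁻¹ * (h * (g * (j : GQ))) := by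
        group
      rw [e1, mul_smul, mul_smul, h1, inv_smul_smul]
    have h3 : (j : GQ)⁻¹ * (g⁻¹ * h * g) * (j : GQ) ∈ stb ψ := MulAction.mem_stabilizer_iff.2 h2
    rw [hst] at h3
    obtain ⟨k, hk, hk'⟩ := Subgroup.mem_map.1 h3
    have hk2 : (k : GQ) = (j : GQ)⁻¹ * (g⁻¹ * h * g) * (j : GQ) := hk'
    have hu' : ((j * k * j⁻¹ : stb φ) : GQ) = g⁻¹ * h * g := by
      rw [Subgroup.coe_mul, Subgroup.coe_mul, Subgroup.coe_inv, hk2]
      group
    have h5 : (j * k * j⁻¹) • (j • x0) = j • x0 := by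
      rw [mul_smul, inv_smul_smul, mul_smul, MulAction.mem_stabilizer_iff.1 hk]
    have h6 : (j * k * j⁻¹) ∈ Ud p g φ := by
      unfold Ud
      rw [Subgroup.mem_subgroupOf, hu']
      exact mem_cj hd
    have h8 : ((j * k * j⁻¹ : stb φ) : GQ) s = s := (hε _).1 (hy _ h6 h5)
    rw [hu'] at h8
    have h9 : g⁻¹ (h (g s)) = s := h8
    have h10 : g (g⁻¹ (h (g s))) = h (g s) := g.apply_symm_apply _
    rw [← h10, h9]

end Pool.Agent.MX
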