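import Pool.Agent.MX.P.Cnt
import Pool.Agent.MX.P.Pt

/-!
# MX/P-Loc: the field of a transitive set satisfies the local condition
-/

namespace Pool.Agent.MX

open NumberField IsDedekindDomain Pool.Agent.HWR Pool.Agent.QD Pool.Agent.H73.DU
  Pool.Agent.H73.AL Pool.Agent.LD Pool.Agent.MD

private theorem un_eq : ∀ a b : (ZMod 3)ˣ, a ≠ 1 → b ≠ 1 → a = b := by decide

private theorem orb_fix {J : Type} [Group J] (U : Subgroup J) {X : Type} [MulAction J X]
    {y : X} (h : ∀ u ∈ U, u • y = y) : (Orb U y).ncard = 1 := by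
  have h1 : Orb U y = {y} := by
    ext z
    constructor
    · rintro ⟨u, hu, rfl⟩
      exact h u hu
    · intro hz
      have hz' : z = y := hz
      rw [hz']
      exact ⟨1, U.one_mem, one_smul _ _⟩
  rw [h1, Set.ncard_singleton]

section acts

variable {J : Type} [Group J] (D : CocD J) (U : Subgroup J) (hT : D.Triv U) {X : Type}
  [MulAction J X] (hA : ActD D X)

include hT hA

private theorem act_eq {u u' : J} (hu : u ∈ U) (hu' : u' ∈ U) (h : D.ε u = D.ε u') (y : X) :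
    u • y = u' • y := by
  obtain ⟨t1, t2, ht⟩ := hT
  obtain ⟨a1, a2⟩ := ht u hu
  obtain ⟨b1, b2⟩ := ht u' hu'
  exact hA u u' h (by rw [a1, b1, h]) (by rw [a2, b2, h]) y

private theorem act_one {u : J} (hu : u ∈ U) (h : D.ε u = 1) (y : X) : u • y = y := by
  have h1 := act_eq D U hT hA hu U.one_mem (by rw [h, map_one]) y
  rw [h1, one_smul]

private theorem orb_two {y : X} {u0 : J} (hu0 : u0 ∈ U) (h : u0 • y ≠ y) :
    (Orb U y).ncard = 2 ∧ D.ε u0 ≠ 1 ∧ ∀ u ∈ U, u • y = y → D.ε u = 1 := by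
  have h0 : D.ε u0 ≠ 1 := fun h1 => h (act_one D U hT hA hu0 h1 y)
  refine ⟨?_, h0, ?_⟩
  · have h1 : Orb U y = {y, u0 • y} := by
      ext z
      constructor
      · rintro ⟨u, hu, rfl⟩
        by_cases h2 : D.ε u = 1
        · left
          exact act_one D U hT hA hu h2 y
        · right
          exact act_eq D U hT hA hu hu0 (un_eq _ _ h2 h0) y
      · intro hz
        rcases hz with hz | hz
        · rw [hz]
          exact ⟨1, U.one_mem, one_smul _ _⟩
        · have hz' : z = u0 • y := hz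
          rw [hz']
          exact ⟨u0, hu0, rfl⟩
    rw [h1, Set.ncard_pair (Ne.symm h)]
  · intro u hu hy
    by_contra h2
    exact h ((act_eq D U hT hA hu0 hu (un_eq _ _ h0 h2) y).trans hy)

end acts

theorem cnd_pt (K : NF) (φ : K.F →+* AlgebraicClosure ℚ) (x : (K.F)ˣ)
    (s : AlgebraicClosure ℚ) (hs : s ^ 2 = φ (x : K.F)) (D : CocD (stb φ))
    (hε : ∀ g : stb φ, D.ε g = 1 ↔ (g : GQ) s = s) (w : HeightOneSpectrum (𝓞 K.F)) (t : Ty)
    (hxs : t = Ty.s → ¬ LSq w x) (hw : Lcl t φ D w) (X : Type) [MulAction (stb φ) X] {n : ℕ}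
    (hX : TSet (stb φ) X n) (hA : ActD D X) (hU : UqF D X) (F : NF) [Algebra K.F F.F]
    (ψ : F.F →+* AlgebraicClosure ℚ) (hψ : ψ.comp (algebraMap K.F F.F) = φ) (x0 : X)
    (hst : stb ψ = (MulAction.stabilizer (stb φ) x0).map (stb φ).subtype)
    (hn : Module.finrank K.F F.F = n) : Cnd t F.F w := by
  obtain ⟨p, hp, g, hpl, hT, hs1, hs2⟩ := hw
  have := hp
  have key : ∀ y : X, (∀ u ∈ Ud p g φ, u • y = y) ∨
      ∃ u0 ∈ Ud p g φ, u0 • y ≠ y := by
    intro y
    by_cases h : ∀ u ∈ Ud p g φ, u • y = y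
    · exact Or.inl h
    · push Not at h
      exact Or.inr h
  have ht : ∀ {y : X} {u0 : stb φ}, u0 ∈ Ud p g φ → u0 • y ≠ y → t = Ty.s := by
    intro y u0 hu0 hy
    by_contra htt
    exact (orb_two D _ hT hA hu0 hy).2.1 (hs2 htt u0 hu0)
  have hcases : ∀ w' : HeightOneSpectrum (𝓞 F.F), Over w w' →
      ∃ j : stb φ, IsPl p ((g * (j : GQ)) • ψ) w' ∧
        ((locDeg K.F w' = 1 ∧ ∀ u ∈ Ud p g φ, u • (j • x0) = j • x0) ∨
          (locDeg K.F w' = 2 ∧ t = Ty.s)) := by
    intro w' hov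
    obtain ⟨j, hj1, hj2⟩ := cnt K F φ ψ hψ p g X x0 hst hX hn w hpl (by
      intro j w'' hov'' hj
      rcases key (j • x0) with h | ⟨u0, hu0, h⟩
      · rw [orb_fix _ h]
        exact locDeg_pos K.F w''
      · obtain ⟨h2, -, h3⟩ := orb_two D _ hT hA hu0 h
        rw [h2]
        exact Nat.le_of_dvd (locDeg_pos K.F w'')
          (even_at K φ x s hs D hε w (hxs (ht hu0 h)) p g X F ψ hψ x0 hst j w'' hov'' hj h3)) w' hov
    refine ⟨j, hj1, ?_⟩
    rcases key (j • x0) with h | ⟨u0, hu0, h⟩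
    · left
      exact ⟨by rw [hj2, orb_fix _ h], h⟩
    · right
      exact ⟨by rw [hj2, (orb_two D _ hT hA hu0 h).1], ht hu0 h⟩
  have hone : t ≠ Ty.s → ∀ w' : HeightOneSpectrum (𝓞 F.F), Over w w' → locDeg K.F w' = 1 := by
    intro htt w' hov
    obtain ⟨j, -, h | h⟩ := hcases w' hov
    · exact h.1
    · exact absurd h.2 htt
  refine ⟨?_, ?_, ?_, ?_⟩
  · intro w' hov
    obtain ⟨j, -, h | h⟩ := hcases w' hov
    · exact ⟨0, by rw [h.1, pow_zero]⟩
    · exact ⟨1, by rw [h.1, pow_one]⟩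
  · intro htt w' w'' hov hov' hd hd'
    obtain ⟨j, hj, h | h⟩ := hcases w' hov
    · obtain ⟨j', hj', h' | h'⟩ := hcases w'' hov'
      · obtain ⟨u, hu, hu1⟩ := hs1 htt
        exact same_pl K F φ ψ hψ p g X x0 hst j j' hj hj'
          (hU _ hT _ _ u hu u hu hu1 hu1 (h.2 u hu) (h'.2 u hu))
      · rw [h'.1] at hd'
        exact absurd hd' (by norm_num)
    · rw [h.1] at hd
      exact absurd hd (by norm_num)
  · intro htt w' hov
    have h1 := hone (by rw [htt]; exact fun h => by cases h) w' hov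
    unfold locDeg at h1
    exact (mul_eq_one.1 h1).1
  · intro htt w' hov
    have h1 := hone (by rw [htt]; exact fun h => by cases h) w' hov
    unfold locDeg at h1
    exact (mul_eq_one.1 h1).2

end Pool.Agent.MX
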