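import Pool.Agent.MX.P.Defs
import Pool.Agent.MD.F.Cho
import Pool.Agent.LD.L.Apx

/-!
# MX/P-NCyc: the decomposition groups at the places of odd residue characteristic are not cyclic
-/

namespace Pool.Agent.MX

open NumberField IsDedekindDomain Pool.Agent.HWR Pool.Agent.QD Pool.Agent.H73.DU
  Pool.Agent.H73.AL Pool.Agent.LD Pool.Agent.MD

private theorem nc_odd {K : Type} [Field K] [NumberField K] {w : HeightOneSpectrum (𝓞 K)} {x : Kˣ}
    (hx : Odd (ordK w x)) : ¬ LSq w x := by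
  intro h
  have h1 : uK w x = 1 := uK_of_LSq h
  have h2 : uK w x = 0 := uK_eq_zero_iff.2 hx
  rw [h1] at h2
  exact absurd h2 one_ne_zero

private theorem nc_neg {K : Type} [Field K] [NumberField K] {w : HeightOneSpectrum (𝓞 K)} {x : Kˣ}
    (hx : uK w x = -1) : ¬ LSq w x := by
  intro h
  have h1 : uK w x = 1 := uK_of_LSq h
  rw [hx] at h1
  norm_num at h1

private theorem nc_mul {K : Type} [Field K] [NumberField K] {w : HeightOneSpectrum (𝓞 K)} {e p : Kˣ}
    (he : uK w e = -1) (hp : ordK w p = 1) : Odd (ordK w (e * p)) := by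
  have h1 : ¬ Odd (ordK w e) := by
    intro h
    have h2 : uK w e = 0 := uK_eq_zero_iff.2 h
    rw [he] at h2
    norm_num at h2
  rw [Int.not_odd_iff_even] at h1
  have h2 : ordK w (e * p) = ordK w e + ordK w p := Pool.Agent.QD.ordK_mul w e p
  rw [h2, hp]
  exact h1.add_odd odd_one

private theorem nc_exists_u (p : ℕ) [Fact p.Prime] {K : Type} [Field K] [NumberField K]
    (φ : K →+* AlgebraicClosure ℚ) (w : HeightOneSpectrum (𝓞 K)) (g : GQ)
    (hg : IsPl p (g • φ) w) (x : Kˣ) (hx : ¬ LSq w x) (s : AlgebraicClosure ℚ)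
    (hs : s ^ 2 = φ (x : K)) : ∃ u ∈ Ud p g φ, (u : GQ) s ≠ s := by
  by_contra hcon
  push Not at hcon
  apply hx
  apply lsq_of_fix p (g • φ) hg x (g s)
  · rw [← map_pow, hs]
    rfl
  · intro h hd hst
    have hst' : h • (g • φ) = g • φ := hst
    have h3 : g⁻¹ * h * g ∈ stb φ := by
      change (g⁻¹ * h * g) • φ = φ
      rw [mul_smul, mul_smul, hst', inv_smul_smul]
    have h4 := hcon ⟨_, h3⟩ (Subgroup.mem_subgroupOf.2 (mem_cj hd))
    have h5 : (g * (g⁻¹ * h * g)) s = (h * g) s := by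
      rw [← mul_assoc, ← mul_assoc, mul_inv_cancel, one_mul]
    have h6 : g ((g⁻¹ * h * g) s) = h (g s) := h5
    rw [← h6]
    exact congrArg g h4

private theorem nc_flip (p : ℕ) [Fact p.Prime] {K : Type} [Field K] [NumberField K]
    (φ : K →+* AlgebraicClosure ℚ) (w : HeightOneSpectrum (𝓞 K)) (g : GQ)
    (hg : IsPl p (g • φ) w) {γ : stb φ} (hγ : Ud p g φ = Subgroup.zpowers γ) (x : Kˣ)
    (hx : ¬ LSq w x) (s : AlgebraicClosure ℚ) (hs : s ^ 2 = φ (x : K)) :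
    (γ : GQ) s = -s := by
  have h1 : ((γ : GQ) s) ^ 2 = s ^ 2 := by
    rw [← map_pow, hs]
    have h2 : (γ : GQ) • φ = φ := γ.2
    exact congrArg (fun f : K →+* AlgebraicClosure ℚ => f (x : K)) h2
  rcases sq_eq_sq_iff_eq_or_eq_neg.1 h1 with h2 | h2
  · exfalso
    obtain ⟨u, hu, hus⟩ := nc_exists_u p φ w g hg x hx s hs
    apply hus
    rw [hγ] at hu
    have h3 : Subgroup.zpowers γ ≤ (MulAction.stabilizer GQ s).subgroupOf (stb φ) := by
      rw [Subgroup.zpowers_le, Subgroup.mem_subgroupOf]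
      exact h2
    have h4 : (u : GQ) ∈ MulAction.stabilizer GQ s := Subgroup.mem_subgroupOf.1 (h3 hu)
    exact h4
  · exact h2

theorem not_cyc (p : ℕ) [Fact p.Prime] {K : Type} [Field K] [NumberField K]
    (φ : K →+* AlgebraicClosure ℚ) (w : HeightOneSpectrum (𝓞 K)) (g : GQ)
    (hg : IsPl p (g • φ) w) (h2 : (2 : 𝓞 K) ∉ w.asIdeal) : ¬ Cyc (Ud p g φ) := by
  rintro ⟨γ, hγ⟩
  obtain ⟨e, he⟩ := Pool.Agent.LD.exists_nonres w h2
  obtain ⟨π, hπ⟩ := Pool.Agent.QD.N2.exists_ordK w 1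
  obtain ⟨a, ha⟩ := IsAlgClosed.exists_pow_nat_eq (φ (e : K)) (n := 2) two_pos
  obtain ⟨b, hb⟩ := IsAlgClosed.exists_pow_nat_eq (φ (π : K)) (n := 2) two_pos
  have hab : (a * b) ^ 2 = φ ((e * π : Kˣ) : K) := by
    rw [mul_pow, ha, hb, Units.val_mul, map_mul]
  have h1 := nc_flip p φ w g hg hγ e (nc_neg he) a ha
  have h3 := nc_flip p φ w g hg hγ π (nc_odd (by rw [hπ]; exact odd_one)) b hb
  have h4 := nc_flip p φ w g hg hγ (e * π) (nc_odd (nc_mul he hπ)) (a * b) hab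
  rw [map_mul, h1, h3, neg_mul_neg] at h4
  have h5 : a * b = 0 := self_eq_neg.1 h4
  rw [h5, zero_pow two_ne_zero] at hab
  exact (e * π).ne_zero ((map_eq_zero φ).1 hab.symm)

end Pool.Agent.MX
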