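import Pool.Agent.MX.P.Loc
import Pool.Agent.MD.P.RealA

/-!
# MX/P-Real: the fields of the relation
-/

namespace Pool.Agent.MX

open NumberField IsDedekindDomain Pool.Agent.HWR Pool.Agent.QD Pool.Agent.H73.DU
  Pool.Agent.H73.AL Pool.Agent.LD Pool.Agent.MD

private theorem re_one {e : (ZMod 3)ˣ} (he : e ≠ 1) {a t : ZMod 3}
    (h : (e : ZMod 3) * a + ((e : ZMod 3) - 1) * t = a) : a = -t := by
  have h1 : ((e : ZMod 3) - 1) ≠ 0 := by
    intro h2
    apply he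
    apply Units.ext
    rw [Units.val_one]
    exact sub_eq_zero.mp h2
  have h2 : ((e : ZMod 3) - 1) * (a + t) = 0 := by linear_combination h
  exact eq_neg_of_add_eq_zero_left ((mul_eq_zero.mp h2).resolve_left h1)

private theorem re_act9 {J : Type} [Group J] (D : CocD J) : ActD D (X9 D) := by
  intro u u' h1 h2 h3 y
  rw [X9.smul_def, X9.smul_def, h1, h2, h3]

private theorem re_act3 {J : Type} [Group J] (D : CocD J) (c1 c2 : ZMod 3) :
    ActD D (X3 D c1 c2) := by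
  intro u u' h1 h2 h3 y
  rw [X3.smul_def, X3.smul_def, h1, h2, h3]

private theorem re_act2 {J : Type} [Group J] (D : CocD J) : ActD D (X2 D) := by
  intro u u' h1 h2 h3 y
  rw [X2.smul_def, X2.smul_def, h1]

private theorem re_act6 {J : Type} [Group J] (D : CocD J) : ActD D (X6 D) := by
  intro u u' h1 h2 h3 y
  rw [X6.smul_def, X6.smul_def, h1, h2]

private theorem re_uq2 {J : Type} [Group J] (D : CocD J) : UqF D (X2 D) := by
  rintro U - y y' u hu u' hu' he he' h h'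
  rw [X2.smul_def, X2.ext_iff] at h
  dsimp only at h
  exact absurd (mul_eq_right.mp h) he

private theorem re_uq6 {J : Type} [Group J] (D : CocD J) : UqF D (X6 D) := by
  rintro U - y y' u hu u' hu' he he' h h'
  rw [X6.smul_def, X6.ext_iff] at h
  exact absurd (mul_eq_right.mp h.2) he

private theorem re_uq9 {J : Type} [Group J] (D : CocD J) : UqF D (X9 D) := by
  rintro U ⟨t1, t2, ht⟩ y y' u hu u' hu' he he' h h'
  rw [X9.smul_def, X9.ext_iff, (ht u hu).1, (ht u hu).2] at h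
  rw [X9.smul_def, X9.ext_iff, (ht u' hu').1, (ht u' hu').2] at h'
  rw [X9.ext_iff, re_one he h.1, re_one he h.2, re_one he' h'.1, re_one he' h'.2]
  exact ⟨rfl, rfl⟩

private theorem re_uq3 {J : Type} [Group J] (D : CocD J) (c1 c2 : ZMod 3) :
    UqF D (X3 D c1 c2) := by
  have key : ∀ (e : (ZMod 3)ˣ) (a t1 t2 : ZMod 3), e ≠ 1 →
      (e : ZMod 3) * a + (c1 * (((e : ZMod 3) - 1) * t1) + c2 * (((e : ZMod 3) - 1) * t2)) = a →
      a = -(c1 * t1 + c2 * t2) := by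
    intro e a t1 t2 he h
    refine re_one he ?_
    linear_combination h
  rintro U ⟨t1, t2, ht⟩ y y' u hu u' hu' he he' h h'
  rw [X3.smul_def, X3.ext_iff, (ht u hu).1, (ht u hu).2] at h
  rw [X3.smul_def, X3.ext_iff, (ht u' hu').1, (ht u' hu').2] at h'
  rw [X3.ext_iff, key _ _ _ _ he h, key _ _ _ _ he' h']

section

variable (K : NF) (φ : K.F →+* AlgebraicClosure ℚ) (x : (K.F)ˣ)
  (s : AlgebraicClosure ℚ) (hs : s ^ 2 = φ (x : K.F)) (D : CocD (stb φ)) (hD : D.Good)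
  (hε : ∀ g : stb φ, D.ε g = 1 ↔ (g : GQ) s = s) (V : Finset (HeightOneSpectrum (𝓞 K.F)))
  (τ : HeightOneSpectrum (𝓞 K.F) → Ty) (hxs : ∀ v ∈ V, τ v = Ty.s → ¬ LSq v x)
  (hL : ∀ v ∈ V, Lcl (τ v) φ D v)

include hs hε hxs hL

theorem realX (X : Type) [MulAction (stb φ) X] {n : ℕ} (hn : n ∣ 18) (hn2 : 2 ≤ n)
    (hX : TSet (stb φ) X n) (x0 : X) (hA : ActD D X) (hU : UqF D X) :
    ∃ F : NF, OkT K V τ F ∧ RX φ X F := by
  obtain ⟨F, alg, ψ, h1, h2, h3, h4⟩ := fldX K φ X hX x0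
  refine ⟨F, ⟨alg, ?_, ?_, fun v hv => ?_⟩, h4⟩
  · rw [h3]
    exact hn
  · rw [h3]
    exact hn2
  · exact cnd_pt K φ x s hs D hε v (τ v) (hxs v hv) (hL v hv) X hX hA hU F ψ h1 x0 h2 h3

include hD

theorem realT2 : ∃ F : NF, OkT K V τ F ∧ RX φ (X2 D) F := by
  exact realX K φ x s hs D hε V τ hxs hL (X2 D) (by norm_num) le_rfl (ts2 hD) ⟨1⟩
    (re_act2 D) (re_uq2 D)

theorem realT6 : ∃ F : NF, OkT K V τ F ∧ RX φ (X6 D) F := by
  exact realX K φ x s hs D hε V τ hxs hL (X6 D) (by norm_num) (by norm_num) (ts6 hD) ⟨0, 1⟩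
    (re_act6 D) (re_uq6 D)

theorem realT3 (c1 c2 : ZMod 3) (hc : ¬ (c1 = 0 ∧ c2 = 0)) :
    ∃ F : NF, OkT K V τ F ∧ RX φ (X3 D c1 c2) F := by
  exact realX K φ x s hs D hε V τ hxs hL (X3 D c1 c2) (by norm_num) (by norm_num)
    (ts3 hD c1 c2 hc) ⟨0⟩ (re_act3 D c1 c2) (re_uq3 D c1 c2)

theorem realT9 : ∃ F : NF, OkT K V τ F ∧ RX φ (X9 D) F := by
  exact realX K φ x s hs D hε V τ hxs hL (X9 D) (by norm_num) (by norm_num) (ts9 hD) ⟨0, 0⟩
    (re_act9 D) (re_uq9 D)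

end

end Pool.Agent.MX
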